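import Pool.Agent.Run7.h787.ST.Iface

set_option autoImplicit false

/-!
# Project ST, pieces FIX, LIFT, RHO
-/

open NumberField IsDedekindDomain

noncomputable section

namespace Pool.Agent.Run7.h136.ST

open Pool.Agent.Run7.h787.ST

theorem t_FIX : S_FIX := by
  intro K _ _ _ H L hHL hL x hx
  obtain ⟨hfd, hab⟩ := hL
  have := hfd
  have := hab
  have h1 : x ∈ IntermediateField.fixedField
      (IntermediateField.fixingSubgroup (IntermediateField.restrict hHL)) := by
    rw [IntermediateField.mem_fixedField_iff]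
    intro g hg
    refine hx g fun y hy => ?_
    rw [IntermediateField.mem_fixingSubgroup_iff] at hg
    exact hg y ((IntermediateField.mem_restrict hHL y).2 hy)
  rw [IsGalois.fixedField_fixingSubgroup] at h1
  exact (IntermediateField.mem_restrict hHL x).1 h1

theorem sq_pm {K : Type} [Field K] [NumberField K] [Algebra K ℝ] {H L : IntermediateField K ℝ}
    (g : Gal L) (hg : ∀ y : L, (y : ℝ) ∈ H → g y = y) (a : L) (ha : ((a ^ 2 : L) : ℝ) ∈ H) :
    g a = a ∨ g a = -a := by
  have h1 : g (a ^ 2) = a ^ 2 := hg _ ha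
  rw [map_pow] at h1
  exact sq_eq_sq_iff_eq_or_eq_neg.1 h1

theorem t_LIFT (hF : S_FIX) : S_LIFT := by
  intro K _ _ _ H L hHL hL a ha ha2
  by_contra hcon
  push Not at hcon
  apply ha
  refine hF K H L hHL hL a fun g hg => ?_
  rcases sq_pm g hg a ha2 with h | h
  · exact h
  · exact absurd h (hcon g hg)

/-- the automorphisms which fix `H` and `a` fix `H(a)` -/
theorem fix_ext {K : Type} [Field K] [NumberField K] [Algebra K ℝ] {H L : IntermediateField K ℝ}
    (hHL : H ≤ L) (g : Gal L) (hg : ∀ y : L, (y : ℝ) ∈ H → g y = y) (a : L) (ha : g a = a)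
    (y : L) (hy : (y : ℝ) ∈ ext H (a : ℝ)) : g y = y := by
  let F : IntermediateField K L := IntermediateField.fixedField (Subgroup.zpowers g)
  have hFm : ∀ z : L, g z = z → z ∈ F := by
    intro z hz
    rw [IntermediateField.mem_fixedField_iff]
    intro f hf
    obtain ⟨m, rfl⟩ := Subgroup.mem_zpowers_iff.1 hf
    have h1 : g ∈ MulAction.stabilizer (Gal L) z := by
      rw [MulAction.mem_stabilizer_iff]; exact hz
    have h2 := Subgroup.zpow_mem _ h1 m
    rw [MulAction.mem_stabilizer_iff] at h2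
    exact h2
  have hle : ext H (a : ℝ) ≤ F.map L.val := by
    unfold ext
    refine sup_le ?_ ?_
    · intro z hz
      refine ⟨⟨z, hHL hz⟩, ?_, rfl⟩
      exact hFm _ (hg _ hz)
    · rw [IntermediateField.adjoin_simple_le_iff]
      exact ⟨a, hFm _ ha, rfl⟩
  obtain ⟨z, hz, hzy⟩ := hle hy
  have h1 : z = y := Subtype.ext hzy
  subst h1
  have h2 := (IntermediateField.mem_fixedField_iff _ z).1 hz
  exact h2 g (Subgroup.mem_zpowers g)

theorem isU_mul {x y : ℝ} (hx : IsU x) (hy : IsU y) : IsU (x * y) := by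
  obtain ⟨x1, x2, x3⟩ := hx
  obtain ⟨y1, y2, y3⟩ := hy
  refine ⟨mul_ne_zero x1 y1, x2.mul y2, ?_⟩
  rw [mul_inv]
  exact x3.mul y3

theorem int_gal {K : Type} [Field K] [NumberField K] [Algebra K ℝ] {L : IntermediateField K ℝ}
    (g : Gal L) (x : L) (hx : IsIntegral ℤ (x : ℝ)) : IsIntegral ℤ ((g x : L) : ℝ) := by
  have h1 : IsIntegral ℤ x := by
    have h2 : Function.Injective (algebraMap L ℝ) := (algebraMap L ℝ).injective
    exact (isIntegral_algebraMap_iff h2).1 hx
  have h3 : IsIntegral ℤ (g x) := h1.map (g.toAlgHom.toRingHom.toIntAlgHom)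
  exact h3.map ((algebraMap L ℝ).toIntAlgHom)

theorem isU_gal {K : Type} [Field K] [NumberField K] [Algebra K ℝ] {L : IntermediateField K ℝ}
    (g : Gal L) (x : L) (hx : IsU (x : ℝ)) : IsU ((g x : L) : ℝ) := by
  obtain ⟨x1, x2, x3⟩ := hx
  have x0 : x ≠ 0 := by
    intro h; apply x1; rw [h]; rfl
  refine ⟨?_, int_gal g x x2, ?_⟩
  · intro h
    apply x0
    have h1 : g x = 0 := Subtype.ext h
    exact (map_eq_zero g).1 h1
  · have h1 : ((g x : L) : ℝ)⁻¹ = ((g x⁻¹ : L) : ℝ) := by
      rw [map_inv₀]; rfl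
    rw [h1]
    refine int_gal g x⁻¹ ?_
    exact x3

theorem t_RHO (hF : S_FIX) : S_RHO := by
  intro K _ _ _ H L hHL hL a r T ha2 hT hTa hr2 hrU hno
  have := hL.1
  have := hL.2
  have hcomm : ∀ (g h : Gal L) (x : L), g (h x) = h (g x) := by
    intro g h x
    have h1 : g * h = h * g := (IsMulCommutative.is_comm (M := Gal L)).comm g h
    exact congrArg (fun f : Gal L => f x) h1
  -- an automorphism which fixes `H` and `a` fixes `ρ`
  have hpm : ∀ g : Gal L, (∀ y : L, (y : ℝ) ∈ H → g y = y) → g a = a →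
      g r = r ∨ g r = -r := by
    intro g hg hga
    have h1 : g (r ^ 2) = r ^ 2 := fix_ext hHL g hg a hga _ hr2
    rw [map_pow] at h1
    exact sq_eq_sq_iff_eq_or_eq_neg.1 h1
  have hfix : ∀ g : Gal L, (∀ y : L, (y : ℝ) ∈ H → g y = y) → g a = a →
      g (r * T r) = r * T r := by
    intro g hg hga
    rw [map_mul, hcomm g T]
    rcases hpm g hg hga with h | h
    · rw [h]
    · rw [h, map_neg]; ring
  -- automorphisms with `g a = -a`
  have hTinv : ∀ g : Gal L, (∀ y : L, (y : ℝ) ∈ H → g y = y) → g a = -a →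
      g (r * T r) = T (r * T r) := by
    intro g hg hga
    have h1 := hfix (T⁻¹ * g) (fun y hy => by
        show T⁻¹ (g y) = y
        rw [hg y hy]
        have h2 : T⁻¹ (T y) = y := by
          show (T⁻¹ * T) y = y
          rw [inv_mul_cancel]; rfl
        rw [hT y hy] at h2
        exact h2) (by
        show T⁻¹ (g a) = a
        rw [hga, ← hTa]
        show (T⁻¹ * T) a = a
        rw [inv_mul_cancel]; rfl)
    have h2 : T ((T⁻¹ * g) (r * T r)) = g (r * T r) := by
      show (T * (T⁻¹ * g)) (r * T r) = g (r * T r)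
      rw [mul_inv_cancel_left]
    rw [← h2, h1]
  -- `T ρ = ± ρ`
  have hT2 : T (T r) = r ∨ T (T r) = -r := by
    refine hpm (T * T) (fun y hy => ?_) ?_
    · show T (T y) = y
      rw [hT y hy, hT y hy]
    · show T (T a) = a
      rw [hTa, map_neg, hTa, neg_neg]
  have hcase : T (r * T r) = r * T r → ((r * T r : L) : ℝ) ∈ H := by
    intro hTr
    refine hF K H L hHL hL (r * T r) fun g hg => ?_
    rcases sq_pm g hg a ha2 with h | h
    · exact hfix g hg h
    · rw [hTinv g hg h, hTr]
  rcases hT2 with h | h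
  · apply hcase
    rw [map_mul, h, mul_comm]
  · have hTr : T (r * T r) = -(r * T r) := by
      rw [map_mul, h]; ring
    by_cases ha0 : a = 0
    · apply hcase
      refine hfix T hT ?_
      rw [ha0, map_zero]
    · exfalso
      have hy : (((r * T r) / a : L) : ℝ) ∈ H := by
        refine hF K H L hHL hL _ fun g hg => ?_
        rw [map_div₀]
        rcases sq_pm g hg a ha2 with h1 | h1
        · rw [hfix g hg h1, h1]
        · rw [hTinv g hg h1, hTr, h1, neg_div_neg_eq]
      refine hno ⟨_, hy⟩ ?_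
      have ha0' : (a : ℝ) ≠ 0 := by
        intro h1
        exact ha0 (Subtype.ext h1)
      have e : (a : ℝ) ^ 2 * ((⟨((r * T r / a : L) : ℝ), hy⟩ : H) : ℝ) ^ 2 =
          ((r : ℝ) * ((T r : L) : ℝ)) * ((r : ℝ) * ((T r : L) : ℝ)) := by
        show (a : ℝ) ^ 2 * ((r * T r / a : L) : ℝ) ^ 2 = _
        have e1 : ((r * T r / a : L) : ℝ) = (r : ℝ) * ((T r : L) : ℝ) / (a : ℝ) := rfl
        rw [e1]
        field_simp
      rw [e]
      have hρ := isU_mul hrU (isU_gal T r hrU)
      exact isU_mul hρ hρ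

end Pool.Agent.Run7.h136.ST
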