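import Pool.Agent.Run7.h787.ST.Iface

set_option autoImplicit false

/-!
# Project ST, piece SUP
-/

open NumberField IsDedekindDomain Polynomial

noncomputable section

namespace Pool.Agent.Run7.h136.ST

open Pool.Agent.Run7.h787.ST

theorem comm_on {K : Type} [Field K] [NumberField K] [Algebra K ℝ] {H M : IntermediateField K ℝ}
    (hHM : H ≤ M) (hH : IsAb H) (g h : Gal M) (y : M) (hy : (y : ℝ) ∈ H) :
    g (h y) = h (g y) := by
  have := hH.1
  have := hH.2
  letI : Algebra H M := (IntermediateField.inclusion hHM).toRingHom.toAlgebra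
  haveI : IsScalarTower K H M := IsScalarTower.of_algebraMap_eq fun x => rfl
  haveI : Normal K H := inferInstance
  have hc : ∀ (f : Gal M) (z : H), f (algebraMap H M z) = algebraMap H M (f.restrictNormal H z) :=
    fun f z => (AlgEquiv.restrictNormal_commutes f H z).symm
  have hyy : y = algebraMap H M ⟨(y : ℝ), hy⟩ := Subtype.ext rfl
  have h1 : g.restrictNormal H * h.restrictNormal H = h.restrictNormal H * g.restrictNormal H :=
    (IsMulCommutative.is_comm (M := Gal H)).comm _ _
  rw [hyy, hc h, hc g, hc g, hc h]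
  congr 1
  exact congrArg (fun f : Gal H => f ⟨(y : ℝ), hy⟩) h1

theorem sup_ab {K : Type} [Field K] [NumberField K] [Algebra K ℝ] (H H' : IntermediateField K ℝ)
    (hH : IsAb H) (hH' : IsAb H') : IsAb (H ⊔ H') := by
  have h1 := hH.1
  have h2 := hH.2
  have h3 := hH'.1
  have h4 := hH'.2
  refine ⟨IntermediateField.finiteDimensional_sup H H', ?_⟩
  have hfd : FiniteDimensional K ↥(H ⊔ H') := IntermediateField.finiteDimensional_sup H H'
  have hn : Normal K ↥(H ⊔ H') := IntermediateField.normal_sup K ℝ H H'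
  have hg : IsGalois K ↥(H ⊔ H') := {}
  refine { hg with is_comm := ⟨fun g h => ?_⟩ }
  -- the commutator fixes everything
  have hfix : ∀ y : ↥(H ⊔ H'), ((y : ℝ) ∈ H ∨ (y : ℝ) ∈ H') → (h⁻¹ * g⁻¹ * h * g) y = y := by
    intro y hy
    have e : g (h y) = h (g y) := by
      rcases hy with hy | hy
      · exact comm_on le_sup_left hH g h y hy
      · exact comm_on le_sup_right hH' g h y hy
    show h⁻¹ (g⁻¹ (h (g y))) = y
    rw [← e]
    have e1 : g⁻¹ (g (h y)) = h y := by
      show (g⁻¹ * g) (h y) = h y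
      rw [inv_mul_cancel]; rfl
    rw [e1]
    show (h⁻¹ * h) y = y
    rw [inv_mul_cancel]; rfl
  set f : Gal (H ⊔ H') := h⁻¹ * g⁻¹ * h * g with hf
  let F : IntermediateField K ↥(H ⊔ H') := IntermediateField.fixedField (Subgroup.zpowers f)
  have hFm : ∀ z : ↥(H ⊔ H'), f z = z → z ∈ F := by
    intro z hz
    rw [IntermediateField.mem_fixedField_iff]
    intro f' hf'
    obtain ⟨m, rfl⟩ := Subgroup.mem_zpowers_iff.1 hf'
    have h1 : f ∈ MulAction.stabilizer (Gal (H ⊔ H')) z := by
      rw [MulAction.mem_stabilizer_iff]; exact hz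
    have h2 := Subgroup.zpow_mem _ h1 m
    rw [MulAction.mem_stabilizer_iff] at h2
    exact h2
  have hle : H ⊔ H' ≤ F.map (H ⊔ H').val := by
    refine sup_le ?_ ?_
    · intro z hz
      exact ⟨⟨z, (le_sup_left : H ≤ H ⊔ H') hz⟩, hFm _ (hfix _ (Or.inl hz)), rfl⟩
    · intro z hz
      exact ⟨⟨z, (le_sup_right : H' ≤ H ⊔ H') hz⟩, hFm _ (hfix _ (Or.inr hz)), rfl⟩
  have hone : f = 1 := by
    ext1 y
    obtain ⟨z, hz, hzy⟩ := hle y.2
    have h1 : z = y := Subtype.ext hzy
    subst h1
    exact (IntermediateField.mem_fixedField_iff _ z).1 hz f (Subgroup.mem_zpowers f)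
  have h5 : h * g = g * h * f := by
    rw [hf]; group
  rw [hone, mul_one] at h5
  exact h5.symm

theorem sqrt_ab {K : Type} [Field K] [NumberField K] [Algebra K ℝ] (a : ℝ) (α : K)
    (ha : a ^ 2 = algebraMap K ℝ α) : IsAb (IntermediateField.adjoin K {a}) := by
  have hmon : (X ^ 2 - C α : K[X]).Monic := monic_X_pow_sub_C α two_ne_zero
  have hev : aeval a (X ^ 2 - C α : K[X]) = 0 := by
    rw [map_sub, map_pow, aeval_X, aeval_C, ha, sub_self]
  have hint : IsIntegral K a := ⟨X ^ 2 - C α, hmon, by
    rw [← aeval_def]; exact hev⟩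
  have hfd : FiniteDimensional K (IntermediateField.adjoin K {a}) :=
    IntermediateField.adjoin.finiteDimensional hint
  refine ⟨hfd, ?_⟩
  by_cases hK : a ∈ (algebraMap K ℝ).range
  · have h1 : IntermediateField.adjoin K {a} = ⊥ := by
      rw [IntermediateField.adjoin_simple_eq_bot_iff, IntermediateField.mem_bot]
      exact hK
    rw [h1]
    infer_instance
  · have hdeg : (minpoly K a).natDegree = 2 := by
      have h1 : (minpoly K a).natDegree ≤ 2 := by
        have h2 := natDegree_le_of_dvd (minpoly.dvd K a hev) hmon.ne_zero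
        rwa [natDegree_X_pow_sub_C] at h2
      have h3 : 0 < (minpoly K a).natDegree := minpoly.natDegree_pos hint
      have h4 : (minpoly K a).natDegree ≠ 1 := fun h => hK (minpoly.natDegree_eq_one_iff.1 h)
      omega
    have hq : Algebra.IsQuadraticExtension K (IntermediateField.adjoin K {a}) :=
      { finrank_eq_two' := by rw [IntermediateField.adjoin.finrank hint, hdeg] }
    have hg : IsGalois K (IntermediateField.adjoin K {a}) := inferInstance
    have hc : IsMulCommutative (Gal (IntermediateField.adjoin K {a})) :=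
      Algebra.IsQuadraticExtension.isMulCommutative_galoisGroup K _
    exact { hg with is_comm := hc.is_comm }

theorem t_SUP : S_SUP := by
  intro K _ _ _
  exact ⟨sup_ab, sqrt_ab⟩

end Pool.Agent.Run7.h136.ST
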